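import Mathlib

/-!
Continuous logarithms of complex functions on sets, and elementary plane topology derived from
them: homotopy invariance, gluing, the Poincare-Miranda crossing lemma for two paths in a
rectangle, a jump lemma in an arbitrary chart, and invariance of the boundary of a surface.
-/

namespace Pool.Agent.Lib.PlaneTop

open Set Complex Filter Topology

variable {X : Type*} [TopologicalSpace X]

/-- `F` has a continuous logarithm on `K`. -/
def HasLogOn (F : X → ℂ) (K : Set X) : Prop :=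
  ∃ ω : X → ℂ, ContinuousOn ω K ∧ ∀ x ∈ K, exp (ω x) = F x

lemma HasLogOn.mono {F : X → ℂ} {K K' : Set X} (h : HasLogOn F K) (hK : K' ⊆ K) :
    HasLogOn F K' := by
  obtain ⟨ω, h1, h2⟩ := h
  exact ⟨ω, h1.mono hK, fun x hx => h2 x (hK hx)⟩

lemma HasLogOn.congr {F F' : X → ℂ} {K : Set X} (h : HasLogOn F K) (hK : ∀ x ∈ K, F' x = F x) :
    HasLogOn F' K := by
  obtain ⟨ω, h1, h2⟩ := h
  exact ⟨ω, h1, fun x hx => (h2 x hx).trans (hK x hx).symm⟩

lemma HasLogOn.mul {F F' : X → ℂ} {K : Set X} (h : HasLogOn F K) (h' : HasLogOn F' K) :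
    HasLogOn (fun x => F x * F' x) K := by
  obtain ⟨ω, h1, h2⟩ := h
  obtain ⟨ω', h1', h2'⟩ := h'
  exact ⟨fun x => ω x + ω' x, h1.add h1', fun x hx => by rw [exp_add, h2 x hx, h2' x hx]⟩

lemma HasLogOn.div {F F' : X → ℂ} {K : Set X} (h : HasLogOn F K) (h' : HasLogOn F' K) :
    HasLogOn (fun x => F x / F' x) K := by
  obtain ⟨ω, h1, h2⟩ := h
  obtain ⟨ω', h1', h2'⟩ := h'
  exact ⟨fun x => ω x - ω' x, h1.sub h1', fun x hx => by rw [exp_sub, h2 x hx, h2' x hx]⟩

lemma HasLogOn.ne_zero {F : X → ℂ} {K : Set X} (h : HasLogOn F K) {x : X} (hx : x ∈ K) :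
    F x ≠ 0 := by
  obtain ⟨ω, -, h2⟩ := h
  rw [← h2 x hx]; exact exp_ne_zero _

lemma hasLogOn_const {c : ℂ} (hc : c ≠ 0) (K : Set X) : HasLogOn (fun _ => c) K :=
  ⟨fun _ => log c, continuousOn_const, fun _ _ => exp_log hc⟩

lemma HasLogOn.comp {Y : Type*} [TopologicalSpace Y] {F : X → ℂ} {K : Set X} (h : HasLogOn F K)
    {φ : Y → X} {K' : Set Y} (hφ : ContinuousOn φ K') (hm : MapsTo φ K' K) :
    HasLogOn (fun y => F (φ y)) K' := by
  obtain ⟨ω, h1, h2⟩ := h
  exact ⟨fun y => ω (φ y), h1.comp hφ hm, fun y hy => h2 _ (hm hy)⟩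

lemma hasLogOn_slit {F : X → ℂ} {K : Set X} (hF : ContinuousOn F K)
    (h : ∀ x ∈ K, F x ∈ slitPlane) : HasLogOn F K :=
  ⟨fun x => log (F x), hF.clog h, fun x hx => exp_log (slitPlane_ne_zero (h x hx))⟩

/-- homotopy invariance -/
lemma HasLogOn.homotopy {H : ℝ → X → ℂ} {K : Set X}
    (hH : ContinuousOn (fun p : ℝ × X => H p.1 p.2) (Icc 0 1 ×ˢ K))
    (hne : ∀ t ∈ Icc (0 : ℝ) 1, ∀ x ∈ K, H t x ≠ 0) (h0 : HasLogOn (H 0) K) :
    HasLogOn (H 1) K := by
  classical
  obtain ⟨ω, h1, h2⟩ := h0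
  let H' : C(unitInterval × K, {z : ℂ // z ≠ 0}) :=
    ⟨fun p => ⟨H p.1 p.2, hne _ p.1.2 _ p.2.2⟩, by
      refine Continuous.subtype_mk ?_ _
      exact hH.comp_continuous (f := fun p : unitInterval × K => ((p.1 : ℝ), (p.2 : X)))
        (by fun_prop) (fun p => ⟨p.1.2, p.2.2⟩)⟩
  let f : C(K, ℂ) := ⟨K.domRestrict ω, continuousOn_iff_continuous_domRestrict.1 h1⟩
  have H0 : ∀ a : K, H' (0, a) =
      (fun z : ℂ => (⟨_, z.exp_ne_zero⟩ : {z : ℂ // z ≠ 0})) (f a) := by
    intro a
    apply Subtype.ext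
    exact (h2 a a.2).symm
  let L := isCoveringMap_exp.liftHomotopy H' f H0
  have hL := isCoveringMap_exp.liftHomotopy_lifts H' f H0
  refine ⟨fun x => if hx : x ∈ K then L (1, ⟨x, hx⟩) else 0, ?_, fun x hx => ?_⟩
  · rw [continuousOn_iff_continuous_domRestrict]
    have : K.domRestrict (fun x => if hx : x ∈ K then L (1, ⟨x, hx⟩) else 0) =
        fun a : K => L (1, a) := by
      funext a; simp [Set.domRestrict]
    rw [this]; fun_prop
  · simp only [hx, dif_pos]
    have := congrArg Subtype.val (congrFun hL (1, ⟨x, hx⟩))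
    exact this

lemma HasLogOn.homotopy' {H : ℝ → X → ℂ} {K : Set X}
    (hH : ContinuousOn (fun p : ℝ × X => H p.1 p.2) (Icc 0 1 ×ˢ K))
    (hne : ∀ t ∈ Icc (0 : ℝ) 1, ∀ x ∈ K, H t x ≠ 0) (h0 : HasLogOn (H 1) K) :
    HasLogOn (H 0) K := by
  have := HasLogOn.homotopy (H := fun t x => H (1 - t) x) (K := K)
    (hH.comp (f := fun p : ℝ × X => (1 - p.1, p.2)) (by fun_prop)
      (fun p hp => ⟨⟨by linarith [hp.1.2], by linarith [hp.1.1]⟩, hp.2⟩))
    (fun t ht x hx => hne _ ⟨by linarith [ht.2], by linarith [ht.1]⟩ x hx) (by simpa using h0)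
  simpa using this

/-- two continuous logarithms on a preconnected set differ by a constant -/
lemma log_sub_const {ω ω' : X → ℂ} {K : Set X} (hK : IsPreconnected K) (h : ContinuousOn ω K)
    (h' : ContinuousOn ω' K) (he : ∀ x ∈ K, exp (ω x) = exp (ω' x)) {x y : X} (hx : x ∈ K)
    (hy : y ∈ K) : ω x - ω' x = ω y - ω' y := by
  have := isCoveringMap_exp.constOn_of_comp (g := fun x => ω x - ω' x) hK (h.sub h')
    (fun a ha b hb => by
      apply Subtype.ext
      simp only [exp_sub, he a ha, he b hb]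
      rw [div_self (exp_ne_zero _), div_self (exp_ne_zero _)]) hx hy
  exact this

/-- gluing along a preconnected intersection -/
lemma HasLogOn.union {F : X → ℂ} {K K' : Set X} (h : HasLogOn F K) (h' : HasLogOn F K')
    (hK : IsClosed K) (hK' : IsClosed K') (hc : IsPreconnected (K ∩ K')) :
    HasLogOn F (K ∪ K') := by
  classical
  obtain ⟨ω, h1, h2⟩ := h
  obtain ⟨ω', h1', h2'⟩ := h'
  obtain ⟨c, hc1, hc2⟩ : ∃ c : ℂ, exp c = 1 ∧ ∀ x ∈ K ∩ K', ω x = ω' x + c := by
    rcases (K ∩ K').eq_empty_or_nonempty with he | ⟨y, hy⟩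
    · exact ⟨0, exp_zero, by simp [he]⟩
    · have hee : ∀ x ∈ K ∩ K', exp (ω x) = exp (ω' x) := fun x hx => by
        rw [h2 x hx.1, h2' x hx.2]
      refine ⟨ω y - ω' y, by rw [exp_sub, hee y hy, div_self (exp_ne_zero _)], fun x hx => ?_⟩
      have := log_sub_const hc (h1.mono inter_subset_left) (h1'.mono inter_subset_right) hee hx hy
      linear_combination this
  refine ⟨fun x => if x ∈ K then ω x else ω' x + c, ?_, fun x hx => ?_⟩
  · refine ContinuousOn.union_of_isClosed ?_ ?_ hK hK'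
    · exact h1.congr fun x hx => by simp [hx]
    · refine (h1'.add continuousOn_const : ContinuousOn (fun x => ω' x + c) K').congr
        fun x hx => ?_
      by_cases hxK : x ∈ K
      · simp [hxK, hc2 x ⟨hxK, hx⟩]
      · simp [hxK]
  · by_cases hxK : x ∈ K
    · simp [hxK, h2 x hxK]
    · simp [hxK, exp_add, hc1, h2' x (hx.resolve_left hxK)]

/-- `(z - a) ^ n` has no logarithm on a circle about `a` -/
lemma not_hasLogOn_sphere_pow (a : ℂ) {r : ℝ} (hr : 0 < r) {n : ℕ} (hn : n ≠ 0) :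
    ¬ HasLogOn (fun z => (z - a) ^ n) (Metric.sphere a r) := by
  rintro ⟨ω, h1, h2⟩
  have hm : ∀ t : ℝ, circleMap a r t ∈ Metric.sphere a r := fun t => circleMap_mem_sphere a hr.le t
  have hc : Continuous fun t : ℝ => ω (circleMap a r t) :=
    h1.comp_continuous (continuous_circleMap a r) hm
  have := log_sub_const (K := univ) (ω := fun t : ℝ => ω (circleMap a r t))
    (ω' := fun t : ℝ => n * (Real.log r + t * I)) isPreconnected_univ hc.continuousOn
    (by fun_prop) (fun t _ => by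
      rw [h2 _ (hm t), exp_nat_mul, exp_add, ← ofReal_exp, Real.exp_log hr]
      simp [circleMap]) (mem_univ 0) (mem_univ (2 * Real.pi))
  have h3 : circleMap a r (2 * Real.pi) = circleMap a r 0 := by
    simpa using periodic_circleMap a r 0
  simp only [h3] at this
  have h4 : (n : ℂ) * (2 * Real.pi * I) = 0 := by
    push_cast at this
    linear_combination this
  simp [hn, Real.pi_ne_zero] at h4

lemma not_hasLogOn_sphere (a : ℂ) {r : ℝ} (hr : 0 < r) :
    ¬ HasLogOn (fun z => z - a) (Metric.sphere a r) := by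
  simpa using not_hasLogOn_sphere_pow a hr one_ne_zero

/-- on a convex set every nonvanishing continuous function has a logarithm -/
lemma hasLogOn_of_convex {E : Type*} [NormedAddCommGroup E] [NormedSpace ℝ E] {F : E → ℂ}
    {C : Set E} (hC : Convex ℝ C) (hF : ContinuousOn F C) (hne : ∀ x ∈ C, F x ≠ 0) :
    HasLogOn F C := by
  rcases C.eq_empty_or_nonempty with rfl | ⟨c, hc⟩
  · exact ⟨0, continuousOn_empty _, by simp⟩
  have hm : ∀ t ∈ Icc (0 : ℝ) 1, ∀ x ∈ C, (1 - t) • c + t • x ∈ C := fun t ht x hx =>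
    hC hc hx (by linarith [ht.2]) ht.1 (by ring)
  have := HasLogOn.homotopy (H := fun t x => F ((1 - t) • c + t • x)) (K := C)
    (hF.comp (f := fun p : ℝ × E => (1 - p.1) • c + p.1 • p.2) (by fun_prop)
      (fun p hp => hm _ hp.1 _ hp.2))
    (fun t ht x hx => hne _ (hm t ht x hx)) (by simpa using hasLogOn_const (hne c hc) C)
  simpa using this

/-- moving the base point along a path that avoids `K` -/
lemma HasLogOn.of_joinedIn {K : Set ℂ} {a b : ℂ} (hab : JoinedIn Kᶜ a b)
    (h : HasLogOn (fun z => z - a) K) : HasLogOn (fun z => z - b) K := by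
  obtain ⟨γ, hγ⟩ := hab
  have := HasLogOn.homotopy (H := fun t z => z - γ.extend t) (K := K)
    (Continuous.continuousOn (by fun_prop))
    (fun t ht z hz h0 => by
      have h1 : γ.extend t ∈ Kᶜ := by rw [γ.extend_apply ht]; exact hγ _
      exact h1 (by rwa [← sub_eq_zero.1 h0]))
    (by simpa using h)
  simpa using this

lemma hasLogOn_quot_of_joinedIn {K : Set ℂ} {a b : ℂ} (hab : JoinedIn Kᶜ a b) :
    HasLogOn (fun z => (z - b) / (z - a)) K := by
  have ha : a ∈ Kᶜ := hab.source_mem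
  obtain ⟨γ, hγ⟩ := hab
  have hza : ∀ z ∈ K, z - a ≠ 0 := fun z hz h0 => ha (by rwa [← sub_eq_zero.1 h0])
  have := HasLogOn.homotopy (H := fun t z => (z - γ.extend t) / (z - a)) (K := K)
    (ContinuousOn.div (Continuous.continuousOn (by fun_prop))
      (Continuous.continuousOn (by fun_prop)) (fun p hp => hza _ hp.2))
    (fun t ht z hz => div_ne_zero (fun h0 => by
      have h1 : γ.extend t ∈ Kᶜ := by rw [γ.extend_apply ht]; exact hγ _
      exact h1 (by rwa [← sub_eq_zero.1 h0])) (hza z hz))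
    ((hasLogOn_const one_ne_zero K).congr fun z hz => by simp [div_self (hza z hz)])
  simpa using this

/-- Poincare-Miranda in the form needed for crossing paths. -/
lemma miranda {u : ℝ → ℝ → ℂ} (hu : Continuous fun p : ℝ × ℝ => u p.1 p.2)
    (hl : ∀ t ∈ Icc (0 : ℝ) 1, (u 0 t).re ≤ 0) (hr : ∀ t ∈ Icc (0 : ℝ) 1, 0 ≤ (u 1 t).re)
    (hb : ∀ s ∈ Icc (0 : ℝ) 1, (u s 0).im ≤ 0) (ht : ∀ s ∈ Icc (0 : ℝ) 1, 0 ≤ (u s 1).im) :
    ∃ s ∈ Icc (0 : ℝ) 1, ∃ t ∈ Icc (0 : ℝ) 1, u s t = 0 := by
  by_contra hcon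
  push Not at hcon
  let cl : ℝ → ℝ := fun x => max 0 (min 1 x)
  have hcl : Continuous cl := by fun_prop
  have hclm : ∀ x, cl x ∈ Icc (0 : ℝ) 1 := fun x =>
    ⟨le_max_left _ _, max_le zero_le_one (min_le_left _ _)⟩
  have hcl0 : ∀ x, x - cl x < 0 → cl x = 0 := by
    intro x hx
    simp only [cl] at hx ⊢
    rcases le_total 1 x with h | h
    · rw [min_eq_left h, max_eq_right zero_le_one] at hx; linarith
    · rw [min_eq_right h] at hx ⊢
      rcases le_total 0 x with h' | h'
      · rw [max_eq_right h'] at hx; linarith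
      · exact max_eq_left h'
  have hcl1 : ∀ x, 0 < x - cl x → cl x = 1 := by
    intro x hx
    simp only [cl] at hx ⊢
    rcases le_total 1 x with h | h
    · rw [min_eq_left h, max_eq_right zero_le_one]
    · rw [min_eq_right h] at hx
      linarith [le_max_right 0 x]
  let U : ℂ → ℂ := fun w => u (cl w.re) (cl w.im) + (w - (cl w.re + cl w.im * I))
  have hU : Continuous U := by
    refine Continuous.add ?_ (by fun_prop)
    exact hu.comp (f := fun w : ℂ => (cl w.re, cl w.im)) (by fun_prop)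
  have hUne : ∀ w, U w ≠ 0 := by
    intro w h0
    have hre := congrArg re h0
    have him := congrArg im h0
    simp only [U, add_re, sub_re, ofReal_re, mul_re, I_re, mul_zero, ofReal_im, I_im, mul_one,
      sub_self, add_zero, zero_re, add_im, sub_im, mul_im, zero_add, zero_im] at hre him
    have e1 : w.re - cl w.re = 0 := by
      rcases lt_trichotomy (w.re - cl w.re) 0 with h | h | h
      · have := hl _ (hclm w.im); rw [hcl0 _ h] at hre h; linarith
      · exact h
      · have := hr _ (hclm w.im); rw [hcl1 _ h] at hre h; linarith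
    have e2 : w.im - cl w.im = 0 := by
      rcases lt_trichotomy (w.im - cl w.im) 0 with h | h | h
      · have := hb _ (hclm w.re); rw [hcl0 _ h] at him h; linarith
      · exact h
      · have := ht _ (hclm w.re); rw [hcl1 _ h] at him h; linarith
    exact hcon _ (hclm w.re) _ (hclm w.im) (Complex.ext (by simpa [e1] using hre)
      (by simpa [e2] using him))
  obtain ⟨B, hB⟩ := (isCompact_Icc.prod isCompact_Icc :
    IsCompact (Icc (0 : ℝ) 1 ×ˢ Icc (0 : ℝ) 1)).exists_bound_of_continuousOn hu.continuousOn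
  have hB0 : 0 ≤ B := (norm_nonneg _).trans (hB (0, 0) ⟨by simp, by simp⟩)
  have hlog : HasLogOn U (Metric.sphere 0 (B + 3)) :=
    (hasLogOn_of_convex convex_univ hU.continuousOn fun w _ => hUne w).mono (subset_univ _)
  have := HasLogOn.homotopy (H := fun t w => w + (1 - t) * (U w - w))
    (K := Metric.sphere 0 (B + 3)) (Continuous.continuousOn (by fun_prop))
    (fun t ht w hw h0 => by
      have h1 : ‖w‖ = B + 3 := by simpa using hw
      have h2 : ‖U w - w‖ ≤ B + 2 := by
        have : U w - w = u (cl w.re) (cl w.im) - (cl w.re + cl w.im * I) := by simp only [U]; ring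
        rw [this]
        refine (norm_sub_le _ _).trans (add_le_add (hB (_, _) ⟨hclm _, hclm _⟩) ?_)
        refine (norm_add_le _ _).trans ?_
        simp only [norm_real, Real.norm_eq_abs, Complex.norm_mul, norm_I, mul_one]
        have a1 := hclm w.re
        have a2 := hclm w.im
        rw [abs_of_nonneg a1.1, abs_of_nonneg a2.1]
        linarith [a1.2, a2.2]
      have h3 : w = -((1 - t) * (U w - w)) := by linear_combination h0
      have h4 : ‖(1 - (t : ℂ))‖ ≤ 1 := by
        rw [← ofReal_one, ← ofReal_sub, norm_real, Real.norm_eq_abs, abs_le]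
        constructor <;> linarith [ht.1, ht.2]
      have h5 : ‖w‖ ≤ 1 * (B + 2) := by
        calc ‖w‖ = ‖(1 - (t : ℂ))‖ * ‖U w - w‖ := by
              rw [← norm_mul, ← norm_neg ((1 - (t : ℂ)) * _), ← h3]
          _ ≤ _ := by gcongr
      linarith)
    (by simpa using hlog)
  exact not_hasLogOn_sphere 0 (r := B + 3) (by linarith) (by simpa using this)

/-- a left-right path and a top-bottom path meet -/
lemma paths_cross {x y z w : ℂ} (γ : Path x y) (β : Path z w)
    (h1 : ∀ t, x.re ≤ (β t).re) (h2 : ∀ t, (β t).re ≤ y.re)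
    (h3 : ∀ s, (γ s).im ≤ z.im) (h4 : ∀ s, w.im ≤ (γ s).im) : ∃ s t, γ s = β t := by
  obtain ⟨s, hs, t, ht, h⟩ := miranda (u := fun s t => γ.extend s - β.extend t) (by fun_prop)
    (fun t ht => by simpa [β.extend_apply ht] using h1 _)
    (fun t ht => by simpa [β.extend_apply ht] using h2 _)
    (fun t ht => by simpa [γ.extend_apply ht] using h3 _)
    (fun t ht => by simpa [γ.extend_apply ht] using h4 _)
  rw [γ.extend_apply hs, β.extend_apply ht] at h
  exact ⟨_, _, sub_eq_zero.1 h⟩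

end Pool.Agent.Lib.PlaneTop
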