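import Pool.Agent.Lib.PlaneTop.HasLog

/-!
A jump lemma for winding numbers in an arbitrary chart, and invariance of the boundary.
-/

namespace Pool.Agent.Lib.PlaneTop

open Set Complex Filter Topology
open scoped Manifold

/-- In a chart, `z - ψ c` has no logarithm on the image of a square about `c`. -/
lemma not_hasLogOn_square (ψ : OpenPartialHomeomorph ℂ ℂ) (c : ℂ) {s : ℝ} (hs : 0 < s)
    (hS : ∀ y : ℂ, max |y.re - c.re| |y.im - c.im| ≤ s → y ∈ ψ.source) :
    ¬ HasLogOn (fun z => z - ψ c) (ψ '' {y | max |y.re - c.re| |y.im - c.im| = s}) := by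
  intro h
  set ρ : ℂ → ℝ := fun y => max |y.re - c.re| |y.im - c.im| with hρ
  have hρc : Continuous ρ := by fun_prop
  have hρ0 : ∀ y, y ≠ c → 0 < ρ y := by
    intro y hy
    by_contra hcon
    have h1 : |y.re - c.re| ≤ 0 := (le_max_left _ _).trans (not_lt.1 hcon)
    have h2 : |y.im - c.im| ≤ 0 := (le_max_right _ _).trans (not_lt.1 hcon)
    exact hy (Complex.ext (sub_eq_zero.1 (abs_nonpos_iff.1 h1))
      (sub_eq_zero.1 (abs_nonpos_iff.1 h2)))
  have hρs : ∀ (y : ℂ) (k : ℝ), 0 ≤ k → ρ (c + k * (y - c)) = k * ρ y := by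
    intro y k hk
    simp only [hρ, add_re, mul_re, ofReal_re, sub_re, ofReal_im, sub_im, zero_mul, sub_zero,
      add_sub_cancel_left, add_im, mul_im, add_zero, abs_mul, abs_of_nonneg hk]
    rw [mul_max_of_nonneg _ _ hk]
  have hcs : c ∈ ψ.source := hS c (by simp [hs.le])
  have hnb : ψ.target ∩ ψ.symm ⁻¹' {y | ρ y < s} ∈ 𝓝 (ψ c) := by
    refine inter_mem (ψ.open_target.mem_nhds (ψ.map_source hcs)) ?_
    refine (ψ.continuousAt_symm (ψ.map_source hcs)).preimage_mem_nhds ?_
    rw [ψ.left_inv hcs]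
    exact (isOpen_lt hρc continuous_const).mem_nhds (by simp [hρ, hs])
  obtain ⟨r, hr, hball⟩ := Metric.nhds_basis_closedBall.mem_iff.1 hnb
  have hsph : ∀ z ∈ Metric.sphere (ψ c) r, z ∈ ψ.target ∧ ρ (ψ.symm z) < s ∧ ψ.symm z ≠ c := by
    intro z hz
    have := hball (Metric.sphere_subset_closedBall hz)
    refine ⟨this.1, this.2, fun h0 => ?_⟩
    have h1 : z = ψ c := by rw [← h0, ψ.right_inv this.1]
    rw [h1] at hz
    simp at hz
    exact hr.ne hz
  let k : ℝ → ℂ → ℝ := fun τ z => (1 - τ) + τ * (s / ρ (ψ.symm z))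
  have hk : ∀ τ ∈ Icc (0 : ℝ) 1, ∀ z ∈ Metric.sphere (ψ c) r,
      0 < k τ z ∧ k τ z * ρ (ψ.symm z) ≤ s := by
    intro τ hτ z hz
    obtain ⟨-, h2, h3⟩ := hsph z hz
    have h4 := hρ0 _ h3
    have h5 : 1 < s / ρ (ψ.symm z) := (one_lt_div h4).2 h2
    refine ⟨by simp only [k]; nlinarith [hτ.1, hτ.2], ?_⟩
    simp only [k]
    rw [add_mul, mul_assoc, div_mul_cancel₀ _ h4.ne']
    nlinarith [hτ.1, hτ.2]
  let push : ℝ → ℂ → ℂ := fun τ z => c + k τ z * (ψ.symm z - c)
  have hpush : ∀ τ ∈ Icc (0 : ℝ) 1, ∀ z ∈ Metric.sphere (ψ c) r, push τ z ∈ ψ.source := by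
    intro τ hτ z hz
    refine hS _ ?_
    have := hρs (ψ.symm z) _ (hk τ hτ z hz).1.le
    exact this.trans_le (hk τ hτ z hz).2
  have hsc : ContinuousOn (fun p : ℝ × ℂ => ψ.symm p.2) (Icc 0 1 ×ˢ Metric.sphere (ψ c) r) :=
    ψ.continuousOn_symm.comp continuous_snd.continuousOn fun p hp => (hsph _ hp.2).1
  have hpc : ContinuousOn (fun p : ℝ × ℂ => push p.1 p.2) (Icc 0 1 ×ˢ Metric.sphere (ψ c) r) := by
    refine continuousOn_const.add (ContinuousOn.mul ?_ (hsc.sub continuousOn_const))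
    refine continuous_ofReal.comp_continuousOn ?_
    refine ContinuousOn.add (by fun_prop) (ContinuousOn.mul (by fun_prop) ?_)
    exact continuousOn_const.div (hρc.comp_continuousOn hsc)
      fun p hp => (hρ0 _ (hsph _ hp.2).2.2).ne'
  have key := HasLogOn.homotopy' (H := fun τ z => ψ (push τ z) - ψ c)
    (K := Metric.sphere (ψ c) r)
    ((ψ.continuousOn.comp hpc fun p hp => hpush _ hp.1 _ hp.2).sub continuousOn_const)
    (fun τ hτ z hz h0 => by
      have h1 := ψ.injOn (hpush τ hτ z hz) hcs (sub_eq_zero.1 h0)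
      simp only [push, add_eq_left, mul_eq_zero, ofReal_eq_zero, sub_eq_zero] at h1
      rcases h1 with h1 | h1
      · exact (hk τ hτ z hz).1.ne' h1
      · exact (hsph z hz).2.2 h1)
    (by
      refine h.comp (φ := fun z => ψ (push 1 z)) ?_ ?_
      · refine ψ.continuousOn.comp (hpc.comp (f := fun z : ℂ => ((1 : ℝ), z)) (by fun_prop)
          fun z hz => ⟨by simp, hz⟩) fun z hz => hpush 1 (by simp) z hz
      · intro z hz
        refine ⟨push 1 z, ?_, rfl⟩
        have := hρs (ψ.symm z) _ (hk 1 (by simp) z hz).1.le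
        refine this.trans ?_
        simp only [k]
        rw [sub_self, zero_add, one_mul, div_mul_cancel₀ _ (hρ0 _ (hsph z hz).2.2).ne'])
  refine not_hasLogOn_sphere (ψ c) hr (key.congr fun z hz => ?_)
  simp [push, k, ψ.right_inv (hsph z hz).1]

/-- Jump lemma: a closed curve that crosses a short transversal exactly once, in some chart,
cannot have winding number zero about both ends of the transversal. -/
lemma jump (ψ : OpenPartialHomeomorph ℂ ℂ) {s : ℝ} (hs : 0 < s)
    (hS : ∀ y : ℂ, |y.re| ≤ s → -s ≤ y.im → y.im ≤ 2 * s → y ∈ ψ.source)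
    {π : Set ℂ} (hπc : IsClosed π) (hπ : IsPreconnected π) (h1 : ψ s ∈ π) (h2 : ψ (-s) ∈ π)
    (hJ : ∀ τ : ℝ, |τ| ≤ s → ψ (τ * I) ∉ π)
    (hp : HasLogOn (fun z => z - ψ (s * I)) (π ∪ ψ '' {y | y.im = 0 ∧ |y.re| ≤ s}))
    (hm : HasLogOn (fun z => z - ψ (-(s * I))) (π ∪ ψ '' {y | y.im = 0 ∧ |y.re| ≤ s})) :
    False := by
  set σ : Set ℂ := {y | y.im = 0 ∧ |y.re| ≤ s} with hσ
  set S : Set ℂ := {y | |y.re| ≤ s ∧ 0 ≤ y.im ∧ y.im ≤ 2 * s} with hSdef
  set σ' : Set ℂ := S ∩ {y | |y.re| = s ∨ y.im = 2 * s} with hσ'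
  have hSs : S ⊆ ψ.source := fun y hy => hS y hy.1 (by linarith [hy.2.1]) hy.2.2
  have hScl : IsClosed S := by
    simp only [hSdef, setOf_and]
    exact (isClosed_le (by fun_prop) (by fun_prop)).inter
      ((isClosed_le (by fun_prop) (by fun_prop)).inter (isClosed_le (by fun_prop) (by fun_prop)))
  have hSc : IsCompact S := by
    refine Metric.isCompact_of_isClosed_isBounded hScl ?_
    refine (Metric.isBounded_closedBall (x := (0 : ℂ)) (r := 3 * s)).subset fun y hy => ?_
    simp only [Metric.mem_closedBall, dist_zero_right]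
    refine (norm_le_abs_re_add_abs_im y).trans ?_
    rw [abs_of_nonneg hy.2.1]
    linarith [hy.1, hy.2.2]
  have hσS : σ ⊆ S := fun y hy => ⟨hy.2, hy.1.ge, by rw [hy.1]; linarith⟩
  have hσc : IsCompact σ := hSc.of_isClosed_subset (by
    simp only [hσ, setOf_and]
    exact (isClosed_eq (by fun_prop) (by fun_prop)).inter
      (isClosed_le (by fun_prop) (by fun_prop))) hσS
  have hσ'c : IsCompact σ' := hSc.inter_right (by
    simp only [setOf_or]
    exact (isClosed_eq (by fun_prop) (by fun_prop)).union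
      (isClosed_eq (by fun_prop) (by fun_prop)))
  have hJs : ∀ τ : ℝ, |τ| ≤ s → (τ * I : ℂ) ∈ ψ.source := fun τ hτ =>
    hS _ (by simp [hs.le]) (by simpa using (abs_le.1 hτ).1)
      (by simp; linarith [(abs_le.1 hτ).2])
  have hjoin : JoinedIn (π ∪ ψ '' σ')ᶜ (ψ (-(s * I))) (ψ (s * I)) := by
    refine JoinedIn.ofLine (f := fun t : ℝ => ψ (((2 * t - 1) * s : ℝ) * I)) ?_ ?_ ?_ ?_
    · refine ψ.continuousOn.comp (by fun_prop) fun t ht => hJs _ ?_
      rw [abs_le]; constructor <;> nlinarith [ht.1, ht.2]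
    · simp
    · norm_num
    · rintro _ ⟨t, ht, rfl⟩
      have hτ : |(2 * t - 1) * s| ≤ s := by rw [abs_le]; constructor <;> nlinarith [ht.1, ht.2]
      rintro (h | ⟨y, hy, h⟩)
      · exact hJ _ hτ h
      · have := ψ.injOn (hSs hy.1) (hJs _ hτ) h
        rcases hy.2 with h3 | h3
        · rw [this] at h3; simp at h3; exact hs.ne h3
        · rw [this] at h3
          simp only [mul_im, ofReal_re, I_im, mul_one, ofReal_im, I_re, mul_zero, add_zero] at h3
          nlinarith [ht.2]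
  have hR1 := hasLogOn_quot_of_joinedIn hjoin
  have hR2 := hp.div hm
  have hR := hR1.union hR2
    (hπc.union (hσ'c.image_of_continuousOn
      (ψ.continuousOn.mono (inter_subset_left.trans hSs))).isClosed)
    (hπc.union (hσc.image_of_continuousOn (ψ.continuousOn.mono (hσS.trans hSs))).isClosed)
    (by
      convert hπ using 1
      apply Subset.antisymm
      · rintro z ⟨h | ⟨y, hy, rfl⟩, h' | ⟨y', hy', h'⟩⟩
        · exact h
        · exact h
        · exact h'
        · have := ψ.injOn (hSs (hσS hy')) (hSs hy.1) h'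
          subst this
          rcases hy.2 with h3 | h3
          · rcases abs_eq hs.le |>.1 h3 with h4 | h4
            · have : y' = s := Complex.ext (by simpa using h4) (by simpa using hy'.1)
              rwa [this]
            · have : y' = -s := Complex.ext (by simpa using h4) (by simpa using hy'.1)
              rwa [this]
          · rw [hy'.1] at h3; linarith
      · exact fun z hz => ⟨Or.inl hz, Or.inl hz⟩)
  have hSconv : Convex ℝ S := by
    intro x hx y hy a b ha hb hab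
    simp only [hSdef, mem_setOf_eq, add_re, add_im, real_smul, mul_re, ofReal_re, ofReal_im,
      zero_mul, sub_zero, mul_im, add_zero, abs_le] at hx hy ⊢
    refine ⟨⟨?_, ?_⟩, ?_, ?_⟩ <;> nlinarith [hx.1.1, hx.1.2, hx.2.1, hx.2.2, hy.1.1, hy.1.2,
      hy.2.1, hy.2.2]
  have hmS : HasLogOn (fun z => z - ψ (-(s * I))) (ψ '' S) := by
    have h0 : HasLogOn (fun y => ψ y - ψ (-(s * I))) S := by
      refine hasLogOn_of_convex hSconv ((ψ.continuousOn.mono hSs).sub continuousOn_const)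
        fun y hy h0 => ?_
      have hm' : -((s : ℂ) * I) ∈ ψ.source := by
        simpa using hJs (-s) (by rw [abs_neg, abs_of_pos hs])
      have := ψ.injOn (hSs hy) hm' (sub_eq_zero.1 h0)
      have h3 := hy.2.1
      rw [this] at h3
      simp at h3
      linarith
    refine (h0.comp (φ := ψ.symm) (K' := ψ '' S) (ψ.continuousOn_symm.mono ?_) ?_).congr ?_
    · rintro _ ⟨y, hy, rfl⟩; exact ψ.map_source (hSs hy)
    · rintro _ ⟨y, hy, rfl⟩; rwa [ψ.left_inv (hSs hy)]
    · rintro _ ⟨y, hy, rfl⟩; rw [ψ.left_inv (hSs hy)]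
  refine not_hasLogOn_square ψ (s * I) hs (fun y hy => ?_) ?_
  · have a1 := (le_max_left _ _).trans hy
    have a2 := abs_le.1 ((le_max_right _ _).trans hy)
    simp at a1 a2
    exact hS y a1 (by linarith [a2.1]) (by linarith [a2.2])
  · have hsub : {y : ℂ | max |y.re - ((s : ℂ) * I).re| |y.im - ((s : ℂ) * I).im| = s} ⊆
        σ' ∪ σ := by
      intro y hy
      simp only [mul_re, ofReal_re, I_re, mul_zero, ofReal_im, I_im, mul_one, sub_self, sub_zero,
        mul_im, add_zero, mem_setOf_eq] at hy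
      have a1 := (le_max_left _ _).trans hy.le
      have a2 := abs_le.1 ((le_max_right _ _).trans hy.le)
      have hyS : y ∈ S := ⟨a1, by linarith [a2.1], by linarith [a2.2]⟩
      rcases max_choice |y.re| |y.im - s| with h | h
      · exact Or.inl ⟨hyS, Or.inl (h ▸ hy)⟩
      · rw [h] at hy
        rcases (abs_eq hs.le).1 hy with h4 | h4
        · exact Or.inl ⟨hyS, Or.inr (by linarith)⟩
        · exact Or.inr ⟨by linarith, a1⟩
    have hA : ψ '' {y : ℂ | max |y.re - ((s : ℂ) * I).re| |y.im - ((s : ℂ) * I).im| = s} ⊆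
        (π ∪ ψ '' σ') ∪ (π ∪ ψ '' σ) := by
      rintro _ ⟨y, hy, rfl⟩
      rcases hsub hy with h | h
      · exact Or.inl (Or.inr ⟨y, h, rfl⟩)
      · exact Or.inr (Or.inr ⟨y, h, rfl⟩)
    have hB : ψ '' {y : ℂ | max |y.re - ((s : ℂ) * I).re| |y.im - ((s : ℂ) * I).im| = s} ⊆
        ψ '' S := image_mono (hsub.trans (union_subset inter_subset_left hσS))
    refine ((hR.mono hA).mul (hmS.mono hB)).congr fun z hz => ?_
    rw [div_mul_cancel₀ _ (hmS.ne_zero (hB hz))]

/-- Invariance of the boundary: a point of the plane is not sent to the boundary of the half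
plane by a local homeomorphism. -/
lemma not_boundary (k : OpenPartialHomeomorph ℂ (EuclideanHalfSpace 2)) {z₀ : ℂ}
    (hz : z₀ ∈ k.source) : (k z₀).val 0 ≠ 0 := by
  intro h0
  have hval : Continuous (Subtype.val : EuclideanHalfSpace 2 → EuclideanSpace ℝ (Fin 2)) :=
    continuous_subtype_val
  have hrange : ∀ v : EuclideanSpace ℝ (Fin 2), 0 ≤ v 0 → ((𝓡∂ 2).symm v).val = v := fun v hv =>
    (𝓡∂ 2).right_inv (by rw [range_modelWithCornersEuclideanHalfSpace]; exact hv)
  have hsymm : ∀ y : EuclideanHalfSpace 2, (𝓡∂ 2).symm y.val = y := fun y => (𝓡∂ 2).left_inv y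
  have h1 : (𝓡∂ 2).symm ⁻¹' k.target ∈ 𝓝 (k z₀).val := by
    refine (𝓡∂ 2).continuous_symm.continuousAt.preimage_mem_nhds ?_
    rw [hsymm]
    exact k.open_target.mem_nhds (k.map_source hz)
  obtain ⟨r, hr, hball⟩ := Metric.mem_nhds_iff.1 h1
  have h2 : k.source ∩ (fun z => (k z).val) ⁻¹' Metric.ball (k z₀).val r ∈ 𝓝 z₀ :=
    inter_mem (k.open_source.mem_nhds hz)
      ((hval.continuousAt.comp (k.continuousAt hz)).preimage_mem_nhds (Metric.ball_mem_nhds _ hr))
  obtain ⟨ρ, hρ, hb⟩ := Metric.nhds_basis_closedBall.mem_iff.1 h2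
  set y₁ : EuclideanSpace ℝ (Fin 2) := (k z₀).val + EuclideanSpace.single 0 (r / 2) with hy₁
  have hy₁b : y₁ ∈ Metric.ball (k z₀).val r := by
    simp only [hy₁, Metric.mem_ball, dist_self_add_left, EuclideanSpace.norm_single,
      Real.norm_eq_abs]
    rw [abs_of_pos (by linarith)]; linarith
  have hy₁0 : y₁ 0 = r / 2 := by simp [hy₁, h0]
  let v : ℝ → ℂ → EuclideanSpace ℝ (Fin 2) := fun τ z => (1 - τ) • (k z).val + τ • y₁
  have hvb : ∀ τ ∈ Icc (0 : ℝ) 1, ∀ z ∈ Metric.sphere z₀ ρ, v τ z ∈ Metric.ball (k z₀).val r :=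
    fun τ hτ z hz => convex_ball _ _ (hb (Metric.sphere_subset_closedBall hz)).2 hy₁b
      (by linarith [hτ.2]) hτ.1 (by ring)
  have hv0 : ∀ τ z, v τ z 0 = (1 - τ) * (k z).val 0 + τ * (r / 2) := fun τ z => by
    simp [v, hy₁0]
  have hvc : ContinuousOn (fun p : ℝ × ℂ => v p.1 p.2) (Icc 0 1 ×ˢ Metric.sphere z₀ ρ) := by
    have hkc : ContinuousOn (fun p : ℝ × ℂ => (k p.2).val) (Icc 0 1 ×ˢ Metric.sphere z₀ ρ) :=
      hval.comp_continuousOn (k.continuousOn.comp continuous_snd.continuousOn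
        fun p hp => (hb (Metric.sphere_subset_closedBall hp.2)).1)
    have hk1 : ContinuousOn (fun p : ℝ × ℂ => 1 - p.1) (Icc 0 1 ×ˢ Metric.sphere z₀ ρ) := by
      fun_prop
    exact (hk1.smul hkc).add (by fun_prop)
  have key := HasLogOn.homotopy' (H := fun τ z => k.symm ((𝓡∂ 2).symm (v τ z)) - z₀)
    (K := Metric.sphere z₀ ρ)
    ((k.continuousOn_symm.comp ((𝓡∂ 2).continuous_symm.comp_continuousOn hvc)
      fun p hp => hball (hvb _ hp.1 _ hp.2)).sub continuousOn_const)
    (fun τ hτ z hzs he => by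
      have ht : (𝓡∂ 2).symm (v τ z) ∈ k.target := hball (hvb τ hτ z hzs)
      have e1 : (𝓡∂ 2).symm (v τ z) = k z₀ := by rw [← sub_eq_zero.1 he, k.right_inv ht]
      have p1 : 0 ≤ (1 - τ) * (k z).val 0 := mul_nonneg (by linarith [hτ.2]) (k z).2
      have p2 : 0 ≤ τ * (r / 2) := mul_nonneg hτ.1 (by linarith)
      have e2 : v τ z = (k z₀).val := by
        rw [← e1, hrange _ (by rw [hv0]; linarith)]
      have e3 : τ * (r / 2) = 0 := by
        have := hv0 τ z
        rw [e2, h0] at this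
        linarith
      have e4 : τ = 0 := by
        rcases mul_eq_zero.1 e3 with h | h
        · exact h
        · linarith
      have e5 : k z = k z₀ := by
        apply Subtype.ext
        simpa [v, e4] using e2
      have e6 := k.injOn (hb (Metric.sphere_subset_closedBall hzs)).1 hz e5
      rw [e6] at hzs
      simp at hzs
      exact hρ.ne hzs)
    (by
      have hne : k.symm ((𝓡∂ 2).symm y₁) - z₀ ≠ 0 := by
        intro he
        have ht : (𝓡∂ 2).symm y₁ ∈ k.target := hball hy₁b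
        have e1 : (𝓡∂ 2).symm y₁ = k z₀ := by rw [← sub_eq_zero.1 he, k.right_inv ht]
        have e2 : y₁ = (k z₀).val := by rw [← e1, hrange _ (by rw [hy₁0]; linarith)]
        rw [e2, h0] at hy₁0
        linarith
      simpa [v] using hasLogOn_const hne _)
  refine not_hasLogOn_sphere z₀ hρ (key.congr fun z hzs => ?_)
  simp [v, hsymm, k.left_inv (hb (Metric.sphere_subset_closedBall hzs)).1]

end Pool.Agent.Lib.PlaneTop
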